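import Mathlib
import Pool.Agent.Lib.MP_f93cde_pr.Final

open MeasureTheory ProbabilityTheory
open scoped ENNReal BigOperators

namespace Pool.Agent.Results.MP_f93cde_pr.ChaosFails

open Pool.Agent.Lib.MP_f93cde_pr

/-- There is a deterministic sequence of connected 3-uniform hypergraphs of linear growth such
that, for standard Gaussian couplings (`ρ = id`), every inverse temperature `β ∈ (0, ∞]` and every
`t ≥ 0`, the mean squared site overlap is bounded away from `0` uniformly in `N ≥ 4`, both for the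
continuous and for the discrete perturbation. -/
theorem result : ∃ G : (N : ℕ) → Hyper3 N,
    (∃ A θ : ℝ, 0 < A ∧ 0 < θ ∧ ∀ (N : ℕ) (v : Fin N) (r : ℕ), 1 ≤ r →
      (((G N).ball r v).card : ℝ) ≤ A * (r : ℝ) ^ θ) ∧
    (∀ N : ℕ, 3 ≤ N → ∀ v w : Fin N, ∃ r, w ∈ (G N).ball r v) ∧
    ∀ β : ℝ≥0∞, β ≠ 0 → ∀ t : ℝ, 0 ≤ t → ∃ c : ℝ, 0 < c ∧ ∀ N : ℕ, 4 ≤ N →
      c ≤ meanCont (G N) id β t ∧ c ≤ meanDisc (G N) id β t := by
  refine ⟨win, ⟨7, 1, by norm_num, by norm_num, fun N v r hr => ball_card r hr v⟩, ?_, ?_⟩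
  · intro N hN v w
    rcases le_total (v : ℕ) w with h | h
    · exact ⟨w - v, ball_connected hN v _ w (Or.inl (by omega))⟩
    · exact ⟨v - w, ball_connected hN v _ w (Or.inr (by omega))⟩
  · intro β hβ t ht
    have p1 := pL_pos ((Lb β + 14 * 1024) / Real.exp (-t / 2))
    have p2 := pL_pos (Lb β + 14 * 1024)
    refine ⟨min ((1 / 4 * pL ((Lb β + 14 * 1024) / Real.exp (-t / 2)) ^ 4) ^ 2)
      ((Real.exp (-t) ^ 4 * (1 / 4 * pL (Lb β + 14 * 1024) ^ 4)) ^ 2),
      lt_min (by positivity) (by positivity), fun N hN => ⟨?_, ?_⟩⟩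
    · exact (min_le_left _ _).trans (meanCont_ge hβ ht hN)
    · exact (min_le_right _ _).trans (meanDisc_ge hβ ht hN)

end Pool.Agent.Results.MP_f93cde_pr.ChaosFails
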